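import Pool.Agent.H487Z.HeD

set_option autoImplicit false

open Pool.Agent.H487Z.Heesch

/-- For every `k` there is a nonempty body in the Euclidean plane that can be surrounded `k` times
by congruent copies of itself but admits no tiling of the plane by congruent copies of itself. -/
theorem Pool.Agent.Results.MP_6145c0_co.AUnboundedHeesch.result :
    ∀ k : ℕ, ∃ C : Set (EuclideanSpace ℝ (Fin 2)),
      C.Nonempty ∧ IsBody C ∧ Surrounded C k ∧ ¬ Tiles C :=
  main_plane
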